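import Pool.Agent.Helper6.HG.Defs2
import Pool.Agent.Helper3.MT.ZARS

/-!
# HOM: the vanishing ideal of a group whose Lie algebra contains the scalars is homogeneous
-/

set_option autoImplicit false

open MvPolynomial MU MT HD

namespace HG

section

variable {K₀ : Type} [Field K₀] {n : ℕ}

theorem h66_ldv_one (f : MvPolynomial (Fin n × Fin n) K₀) :
    ldv (1 : Matrix (Fin n) (Fin n) K₀) f = ∑ ij : Fin n × Fin n, X ij * pderiv ij f := by
  rw [ldv_pderiv]
  refine Finset.sum_congr rfl fun ij _ => ?_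
  have h1 : ldv (1 : Matrix (Fin n) (Fin n) K₀) (X ij) = X ij := by
    unfold ldv
    rw [mkDerivation_X, Finset.sum_eq_single ij.2]
    · rw [Matrix.one_apply_eq, C_1, mul_one]
    · intro k _ hk
      rw [Matrix.one_apply_ne hk, C_0, mul_zero]
    · intro h
      exact absurd (Finset.mem_univ _) h
  rw [h1, mul_comm]

theorem h66_ldv_hom (d : ℕ) (f : MvPolynomial (Fin n × Fin n) K₀) (hf : f.IsHomogeneous d) :
    ldv (1 : Matrix (Fin n) (Fin n) K₀) f = (d : K₀) • f := by
  rw [h66_ldv_one, hf.sum_X_mul_pderiv]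
  rw [Nat.cast_smul_eq_nsmul]

theorem h66_comp_ldv (d : ℕ) (f : MvPolynomial (Fin n × Fin n) K₀) :
    homogeneousComponent d (ldv (1 : Matrix (Fin n) (Fin n) K₀) f) =
      (d : K₀) • homogeneousComponent d f := by
  conv_lhs => rw [← sum_homogeneousComponent f]
  rw [map_sum, map_sum]
  have h1 : ∀ i ∈ Finset.range (f.totalDegree + 1),
      homogeneousComponent d (ldv (1 : Matrix (Fin n) (Fin n) K₀) (homogeneousComponent i f)) =
        if i = d then (d : K₀) • homogeneousComponent d f else 0 := by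
    intro i _
    rw [h66_ldv_hom i _ (homogeneousComponent_isHomogeneous i f), map_smul,
      homogeneousComponent_of_mem (homogeneousComponent_isHomogeneous i f)]
    by_cases h : d = i
    · subst h
      simp
    · rw [if_neg h, if_neg (fun h' => h h'.symm), smul_zero]
  rw [Finset.sum_congr rfl h1, Finset.sum_ite_eq']
  split_ifs with h
  · rfl
  · rw [Finset.mem_range, not_lt] at h
    rw [homogeneousComponent_eq_zero d f (by omega), smul_zero]

theorem h66_prod (I : Set (MvPolynomial (Fin n × Fin n) K₀))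
    (hadd : ∀ f ∈ I, ∀ g ∈ I, f + g ∈ I) (hsm : ∀ (c : K₀), ∀ f ∈ I, c • f ∈ I)
    (hE : ∀ f ∈ I, ldv (1 : Matrix (Fin n) (Fin n) K₀) f ∈ I)
    (f : MvPolynomial (Fin n × Fin n) K₀) (hf : f ∈ I) (s : Finset ℕ) :
    ∃ g ∈ I, ∀ d : ℕ, homogeneousComponent d g =
      (∏ e ∈ s, ((d : K₀) - (e : K₀))) • homogeneousComponent d f := by
  induction s using Finset.induction_on with
  | empty => exact ⟨f, hf, fun d => by simp⟩
  | insert a s ha ih =>
    obtain ⟨g, hg, hgd⟩ := ih
    refine ⟨ldv (1 : Matrix (Fin n) (Fin n) K₀) g + (-(a : K₀)) • g,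
      hadd _ (hE g hg) _ (hsm _ g hg), fun d => ?_⟩
    rw [map_add, map_smul, h66_comp_ldv, Finset.prod_insert ha, hgd, smul_smul, smul_smul,
      ← add_smul]
    congr 1
    ring

end

theorem st_HOM : ST_HOM := by
  intro K₀ _ _ n X h1 f hf d x hx
  obtain ⟨-, -, hldv, -, -⟩ := st_ZAR K₀ n X
  let I : Set (MvPolynomial (Fin n × Fin n) K₀) :=
    {f | ∀ x ∈ X, ev (x : Matrix (Fin n) (Fin n) K₀) f = 0}
  have hadd : ∀ f ∈ I, ∀ g ∈ I, f + g ∈ I := by
    intro f hf g hg x hx
    rw [map_add, hf x hx, hg x hx, add_zero]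
  have hsm : ∀ (c : K₀), ∀ f ∈ I, c • f ∈ I := by
    intro c f hf x hx
    rw [map_smul, hf x hx, smul_zero]
  have hE : ∀ f ∈ I, ldv (1 : Matrix (Fin n) (Fin n) K₀) f ∈ I :=
    fun f hf x hx => hldv 1 h1 f hf x hx
  obtain ⟨g, hg, hgd⟩ := h66_prod I hadd hsm hE f hf ((Finset.range (f.totalDegree + 1)).erase d)
  have hg0 : ∀ i, i ≠ d → homogeneousComponent i g = 0 := by
    intro i hi
    rw [hgd i]
    by_cases hi' : i ≤ f.totalDegree
    · rw [Finset.prod_eq_zero (i := i), zero_smul]
      · exact Finset.mem_erase.2 ⟨hi, Finset.mem_range.2 (by omega)⟩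
      · exact sub_self _
    · rw [homogeneousComponent_eq_zero i f (by omega), smul_zero]
  have hgg : g = homogeneousComponent d g := by
    conv_lhs => rw [← sum_homogeneousComponent g]
    by_cases hd : d ∈ Finset.range (g.totalDegree + 1)
    · rw [Finset.sum_eq_single_of_mem d hd (fun i _ hi => hg0 i hi)]
    · rw [Finset.mem_range, not_lt] at hd
      rw [homogeneousComponent_eq_zero d g (by omega)]
      apply Finset.sum_eq_zero
      intro i hi
      rw [Finset.mem_range] at hi
      exact hg0 i (by omega)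
  have hc : (∏ e ∈ (Finset.range (f.totalDegree + 1)).erase d, ((d : K₀) - (e : K₀))) ≠ 0 := by
    rw [Finset.prod_ne_zero_iff]
    intro e he
    rw [Finset.mem_erase] at he
    rw [sub_ne_zero]
    intro h
    exact he.1 (Nat.cast_injective h).symm
  have h2 := hg x hx
  rw [hgg, hgd d, map_smul, smul_eq_zero] at h2
  exact h2.resolve_left hc

end HG
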